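import Mathlib
import Pool.Prelude.Def_H_d8dbc49b

namespace Pool.Agent.MP_3f847c_gt

open Cardinal

/-- `f` is scatteredly continuous: its restriction to every nonempty subset `A`
has a point of continuity (for the subspace topology of `A`). -/
def ScatteredlyContinuous {X : Type*} [TopologicalSpace X] (f : X → ℝ) : Prop :=
  ∀ A : Set X, A.Nonempty → ∃ a : A, ContinuousAt (fun x : A => f x) a

/-- The weight of a space: the least cardinality of a base, made at least `ℵ₀`. -/
noncomputable def weight (Z : Type*) [TopologicalSpace Z] : Cardinal :=
  max ℵ₀ (sInf {c : Cardinal | ∃ B : Set (Set Z), TopologicalSpace.IsTopologicalBasis B ∧ #B = c})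

end Pool.Agent.MP_3f847c_gt
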