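import Pool.Agent.MP_3f847c_gt.Defs

namespace Pool.Agent.MP_3f847c_gt

open Cardinal Set TopologicalSpace Topology

/-- The Cantor cube of weight continuum, to be given the countable box topology. -/
def Box : Type := ℝ → Bool

/-- basic sets -/
def cyl (s : ℕ → ℝ) (v : ℕ → Bool) : Set Box := {g | ∀ n, g (s n) = v n}

theorem exists_seq {D : Set ℝ} (hD : D.Countable) : ∃ s : ℕ → ℝ, D ⊆ range s :=
  countable_iff_exists_subset_range.mp hD

instance boxTop : TopologicalSpace Box where
  IsOpen U := ∀ x ∈ U, ∃ s : ℕ → ℝ, cyl s (fun n => x (s n)) ⊆ U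
  isOpen_univ := fun _ _ => ⟨fun _ => 0, subset_univ _⟩
  isOpen_inter := by
    intro U V hU hV x hx
    obtain ⟨s, hs⟩ := hU x hx.1
    obtain ⟨t, ht⟩ := hV x hx.2
    obtain ⟨u, hu⟩ := exists_seq ((countable_range s).union (countable_range t))
    refine ⟨u, fun g hg => ⟨hs fun n => ?_, ht fun n => ?_⟩⟩
    · obtain ⟨m, hm⟩ := hu (Or.inl (mem_range_self n))
      have := hg m
      simp only [hm] at this
      exact this
    · obtain ⟨m, hm⟩ := hu (Or.inr (mem_range_self n))
      have := hg m
      simp only [hm] at this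
      exact this
  isOpen_sUnion := by
    rintro S hS x ⟨U, hU, hx⟩
    obtain ⟨s, hs⟩ := hS U hU x hx
    exact ⟨s, hs.trans (subset_sUnion_of_mem hU)⟩

theorem isOpen_box {U : Set Box} :
    IsOpen U ↔ ∀ x ∈ U, ∃ s : ℕ → ℝ, cyl s (fun n => x (s n)) ⊆ U := Iff.rfl

theorem isClopen_cyl (s : ℕ → ℝ) (v : ℕ → Bool) : IsClopen (cyl s v) := by
  constructor
  · rw [← isOpen_compl_iff, isOpen_box]
    intro x hx
    refine ⟨s, fun g hg hg' => hx fun n => ?_⟩
    exact (hg n).symm.trans (hg' n)
  · rw [isOpen_box]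
    intro x hx
    exact ⟨s, fun g hg n => (hg n).trans (hx n)⟩

theorem mem_cyl_self (s : ℕ → ℝ) (x : Box) : x ∈ cyl s (fun n => x (s n)) := fun _ => rfl

instance : CompletelyRegularSpace Box := by
  apply CompletelyRegularSpace.of_isTopologicalBasis_clopens
  refine isTopologicalBasis_of_isOpen_of_nhds (fun U hU => IsClopen.isOpen hU) ?_
  intro x U hx hU
  obtain ⟨s, hs⟩ := isOpen_box.mp hU x hx
  exact ⟨_, isClopen_cyl s _, mem_cyl_self s x, hs⟩

theorem isClosed_of_countable {C : Set Box} (hC : C.Countable) : IsClosed C := by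
  rw [← isOpen_compl_iff, isOpen_box]
  intro x hx
  have h : ∀ c : C, ∃ r : ℝ, (c : Box) r ≠ x r := by
    intro c
    by_contra hcon
    push Not at hcon
    have : (c : Box) = x := funext hcon
    exact hx (this ▸ c.2)
  choose r hr using h
  have : Countable C := hC.to_subtype
  obtain ⟨s, hs⟩ := exists_seq (countable_range r)
  refine ⟨s, fun g hg hgC => ?_⟩
  obtain ⟨m, hm⟩ := hs (mem_range_self (⟨g, hgC⟩ : C))
  have h1 := hg m
  simp only [hm] at h1
  exact hr ⟨g, hgC⟩ h1

instance : T1Space Box := ⟨fun x => isClosed_of_countable (countable_singleton x)⟩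

instance : T35Space Box where

theorem networkWeight_box : networkWeight Box ≤ 𝔠 := by
  have hN : IsNetwork (range fun p : (ℕ → ℝ) × (ℕ → Bool) => cyl p.1 p.2) := by
    intro U hU x hx
    obtain ⟨s, hs⟩ := isOpen_box.mp hU x hx
    exact ⟨_, ⟨(s, fun n => x (s n)), rfl⟩, mem_cyl_self s x, hs⟩
  refine hN.networkWeight_le.trans ?_
  have h1 : #(range fun p : (ℕ → ℝ) × (ℕ → Bool) => cyl p.1 p.2) ≤ 𝔠 := by
    refine mk_range_le.trans ?_
    simp [mk_real]
  calc _ ≤ 𝔠 + 𝔠 := add_le_add h1 aleph0_le_continuum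
    _ = 𝔠 := by simp

theorem mk_box : #Box = 2 ^ 𝔠 := by
  change #(ℝ → Bool) = _
  simp [mk_real]

/-- functions with countable support are scatteredly continuous as soon as countable sets are
closed -/
theorem sc_of_countable_support {X : Type*} [TopologicalSpace X]
    (hX : ∀ C : Set X, C.Countable → IsClosed C) {f : X → ℝ}
    (hf : (Function.support f).Countable) : ScatteredlyContinuous f := by
  intro A hA
  by_cases h : A ⊆ Function.support f
  · obtain ⟨a, ha⟩ := hA
    refine ⟨⟨a, ha⟩, ?_⟩
    have hc : IsClosed (A \ {a}) := hX _ ((hf.mono h).mono sdiff_subset)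
    have hev : ∀ᶠ x : A in 𝓝 ⟨a, ha⟩, f x = f a := by
      have ho : IsOpen ((Subtype.val : A → X) ⁻¹' (A \ {a})ᶜ) :=
        hc.isOpen_compl.preimage continuous_subtype_val
      filter_upwards [ho.mem_nhds (show (⟨a, ha⟩ : A) ∈ _ by simp)] with x hx
      have : (x : X) = a := by
        by_contra hne
        exact hx ⟨x.2, hne⟩
      rw [this]
    exact continuousAt_const.congr (hev.mono fun x hx => hx.symm)
  · obtain ⟨a, ha, hna⟩ := not_subset.mp h
    refine ⟨⟨a, ha⟩, ?_⟩
    have hc : IsClosed (Function.support f) := hX _ hf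
    have hev : ∀ᶠ x : A in 𝓝 ⟨a, ha⟩, f x = 0 := by
      have ho : IsOpen ((Subtype.val : A → X) ⁻¹' (Function.support f)ᶜ) :=
        hc.isOpen_compl.preimage continuous_subtype_val
      filter_upwards [ho.mem_nhds (show (⟨a, ha⟩ : A) ∈ _ from hna)] with x hx
      simpa using hx
    exact continuousAt_const.congr (hev.mono fun x hx => hx.symm)

/-- The positive part of the unit ball of `ℓ¹(X)`. -/
def simplex (X : Type*) : Set (X → ℝ) :=
  {f | (∀ x, 0 ≤ f x) ∧ ∀ F : Finset X, ∑ x ∈ F, f x ≤ 1}

theorem convex_simplex (X : Type*) : Convex ℝ (simplex X) := by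
  intro f hf g hg a b ha hb hab
  refine ⟨fun x => ?_, fun F => ?_⟩
  · have := hf.1 x
    have := hg.1 x
    simp only [Pi.add_apply, Pi.smul_apply, smul_eq_mul]
    positivity
  · simp only [Pi.add_apply, Pi.smul_apply, smul_eq_mul, Finset.sum_add_distrib,
      ← Finset.mul_sum]
    have h1 := hf.2 F
    have h2 := hg.2 F
    nlinarith

theorem isCompact_simplex (X : Type*) : IsCompact (simplex X) := by
  have hc : IsClosed (simplex X) := by
    have : simplex X = (⋂ x, {f : X → ℝ | 0 ≤ f x}) ∩
        ⋂ F : Finset X, {f : X → ℝ | ∑ x ∈ F, f x ≤ 1} := by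
      ext f
      simp [simplex]
    rw [this]
    refine (isClosed_iInter fun x => ?_).inter (isClosed_iInter fun F => ?_)
    · exact isClosed_le continuous_const (continuous_apply x)
    · exact isClosed_le (continuous_finsetSum _ fun x _ => continuous_apply x) continuous_const
  refine (isCompact_univ_pi fun _ : X => isCompact_Icc (a := (0 : ℝ)) (b := 1)).of_isClosed_subset
    hc ?_
  intro f hf x _
  exact ⟨hf.1 x, by simpa using hf.2 {x}⟩

theorem countable_support_of_mem_simplex {X : Type*} {f : X → ℝ} (hf : f ∈ simplex X) :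
    (Function.support f).Countable :=
  (summable_of_sum_le hf.1 hf.2).countable_support

theorem le_weight_simplex (X : Type) : #X ≤ weight (simplex X) := by
  classical
  refine le_trans ?_ (le_max_right _ _)
  refine le_csInf ⟨_, _, isTopologicalBasis_opens, rfl⟩ ?_
  rintro _ ⟨B, hB, rfl⟩
  have he : ∀ x : X, (Pi.single x 1 : X → ℝ) ∈ simplex X := by
    intro x
    refine ⟨fun y => ?_, fun F => ?_⟩
    · by_cases h : y = x
      · subst h; simp
      · simp [h]
    · by_cases h : x ∈ F
      · simp [Finset.sum_pi_single', h]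
      · simp [Finset.sum_pi_single', h]
  have h : ∀ x : X, ∃ U ∈ B, (⟨_, he x⟩ : simplex X) ∈ U ∧
      U ⊆ {f : simplex X | 1 / 2 < (f : X → ℝ) x} := by
    intro x
    refine hB.exists_subset_of_mem_open ?_ ?_
    · simp only [mem_ofPred_eq, Pi.single_eq_same]
      norm_num
    · exact isOpen_lt continuous_const ((continuous_apply x).comp continuous_subtype_val)
  choose U hUB hxU hU using h
  refine mk_le_of_injective (f := fun x => (⟨U x, hUB x⟩ : B)) ?_
  intro x y hxy
  have hxy' : U x = U y := congrArg Subtype.val hxy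
  have h1 := hU y (hxy' ▸ hxU x)
  by_contra hne
  simp only [mem_ofPred_eq] at h1
  rw [Pi.single_eq_of_ne (Ne.symm hne)] at h1
  norm_num at h1

theorem counterexample :
    ∃ (X : Type) (_ : TopologicalSpace X), T35Space X ∧
      ∃ K : Set (X → ℝ), (∀ f ∈ K, ScatteredlyContinuous f) ∧ IsCompact K ∧ Convex ℝ K ∧
        networkWeight X < weight K := by
  refine ⟨Box, inferInstance, inferInstance, simplex Box, fun f hf => ?_, isCompact_simplex _,
    convex_simplex _, ?_⟩
  · exact sc_of_countable_support (fun C hC => isClosed_of_countable hC)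
      (countable_support_of_mem_simplex hf)
  · calc networkWeight Box ≤ 𝔠 := networkWeight_box
      _ < 2 ^ 𝔠 := cantor _
      _ = #Box := mk_box.symm
      _ ≤ _ := le_weight_simplex _

end Pool.Agent.MP_3f847c_gt
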